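import Pool.Agent.PFC.StmtsB5d

/-!
Squad PFC, block B5d, rows LSN, CPX (helper60).
-/

set_option autoImplicit false

namespace Pool.Agent.PFC.B5c.H60

open Pool.Agent.PFC TensorProduct

/-- LSN: A has at most as many simple modules as N ⊗ A if N is a full matrix algebra. -/
theorem lsn (hLSC : LscStmt) : LsnStmt := by
  intro F N A _ _ _ _ _ _ _ n hn hN
  classical
  obtain ⟨ε⟩ := hN
  have : NeZero n := ⟨hn.ne'⟩
  have : FiniteDimensional F N := Module.Finite.equiv ε.symm.toLinearEquiv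
  let E : Fin n → Fin n → N := fun i j => ε.symm (Matrix.single i j 1)
  have hE : ∀ i j k, E i j * E j k = E i k := by
    intro i j k
    show ε.symm _ * ε.symm _ = ε.symm _
    rw [← map_mul, Matrix.single_mul_single_same, one_mul]
  have hcor : ∀ x : N, E 0 0 * x * E 0 0 = (ε x 0 0) • E 0 0 := by
    intro x
    apply ε.injective
    rw [map_mul, map_mul, map_smul]
    show ε (ε.symm _) * ε x * ε (ε.symm _) = _ • ε (ε.symm _)
    rw [AlgEquiv.apply_symm_apply]
    ext i j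
    rw [Matrix.single_mul_mul_single, one_mul, mul_one, Matrix.smul_apply]
    simp only [Matrix.single_apply, smul_eq_mul]
    split_ifs <;> simp
  let f0 : N →ₗ[F] F :=
    { toFun := fun x => ε x 0 0
      map_add' := fun x y => by rw [map_add, Matrix.add_apply]
      map_smul' := fun c x => by rw [map_smul, Matrix.smul_apply, RingHom.id_apply] }
  let f : N ⊗[F] A →ₗ[F] A := TensorProduct.lid F A ∘ₗ TensorProduct.map f0 LinearMap.id
  let κ : A →ₗ[F] N ⊗[F] A := TensorProduct.mk F N A (E 0 0)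
  have hf0 : f0 (E 0 0) = 1 := by
    show ε (ε.symm _) 0 0 = 1
    rw [AlgEquiv.apply_symm_apply, Matrix.single_apply_same]
  have hfκ : ∀ a, f (κ a) = a := by
    intro a
    show TensorProduct.lid F A (TensorProduct.map f0 LinearMap.id (E 0 0 ⊗ₜ[F] a)) = a
    rw [TensorProduct.map_tmul, TensorProduct.lid_tmul, hf0, one_smul]
    rfl
  have hκf : ∀ z : N ⊗[F] A, (E 0 0 ⊗ₜ[F] (1 : A)) * z * (E 0 0 ⊗ₜ[F] (1 : A)) = κ (f z) := by
    intro z
    induction z using TensorProduct.induction_on with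
    | zero => simp
    | tmul x a =>
      rw [Algebra.TensorProduct.tmul_mul_tmul, Algebra.TensorProduct.tmul_mul_tmul, one_mul,
        mul_one, hcor]
      show _ = E 0 0 ⊗ₜ[F] (TensorProduct.lid F A (TensorProduct.map f0 LinearMap.id (x ⊗ₜ[F] a)))
      rw [TensorProduct.map_tmul, TensorProduct.lid_tmul, TensorProduct.smul_tmul]
      rfl
    | add x y hx hy =>
      rw [mul_add, add_mul, hx, hy, map_add, map_add]
  refine hLSC F (N ⊗[F] A) A (E 0 0 ⊗ₜ[F] (1 : A)) κ ⟨?_, ?_, rfl, ?_⟩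
  · intro a b h
    rw [← hfκ a, ← hfκ b, h]
  · intro a b
    show E 0 0 ⊗ₜ[F] (a * b) = (E 0 0 ⊗ₜ[F] a) * (E 0 0 ⊗ₜ[F] b)
    rw [Algebra.TensorProduct.tmul_mul_tmul, hE]
  · intro z h1 h2
    refine ⟨f z, ?_⟩
    rw [← hκf, h1, h2]

/-- CPX: the conjugation module of A. -/
theorem cpx : CpxStmt := by
  intro F V A _ _ _ _ α P hP
  obtain ⟨Ω, i1, i2, b, c, ⟨h1, h2, h3⟩, -⟩ := hP
  refine ⟨Ω, i1, MulAction.compHom Ω ((MonoidHom.id V).prod (MonoidHom.id V)), b, c,
    ⟨fun u ω => ?_, fun u ω m => ?_, h3⟩, fun _ => trivial⟩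
  · exact h1 (u, u) ω
  · exact h2 (u, u) ω m

end Pool.Agent.PFC.B5c.H60
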