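import Pool.Agent.PFC.StmtsB2

/-!
Squad PFC, block B2, row ANR: the right annihilator of `x`, from the left annihilator (`B3.AnnStmt`)
and the twist `x a = sg a x` (as in Helper86_PFC/Nrm).
-/

set_option autoImplicit false

namespace Pool.Agent.PFC.B2.H60

open Pool.Agent.PFC.B1 Pool.Agent.PFC.B3 MvPolynomial

/-- the twist: linear, surjective, the identity on the polynomials -/
theorem nrm' (k I E Λ : Type) [CommRing k] [Fintype I] [Group E] [Finite E] [Ring Λ]
    [Algebra k Λ] (q : I → ℕ) (p : I → I) (c : I → k) (η : I → E →* kˣ)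
    (P : Pre k I E Λ q p c η) (i : I) :
    ∃ sg : Λ →+* Λ, Function.Surjective sg ∧ (∀ a, P.j (X i) * a = sg a * P.j (X i)) ∧
      (∀ (a : k) z, sg (a • z) = a • sg z) ∧ ∀ f, sg (P.j f) = P.j f := by
  classical
  have jC : ∀ a : k, P.j (MvPolynomial.C a) = algebraMap k Λ a := fun a =>
    P.j.commutes a
  let ε' : E →* Λ :=
    { toFun := fun e => (((η i e)⁻¹ : kˣ) : k) • P.ε e
      map_one' := by rw [map_one, map_one, inv_one, Units.val_one, one_smul]
      map_mul' := fun a b => by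
        rw [map_mul, map_mul, mul_inv, Units.val_mul, smul_mul_smul_comm] }
  have hε' : ∀ e, ε' e = (((η i e)⁻¹ : kˣ) : k) • P.ε e := fun e => rfl
  obtain ⟨h, h1, h2⟩ := P.up Λ (P.j : MvPolynomial I k →+* Λ) ε' (by
      intro i'
      show P.j (X i') ^ q i' = P.j (C (c i')) * P.j (X (p i'))
      rw [P.rel, jC, Algebra.smul_def]) (by
      intro e i'
      show ε' e * P.j (X i') = P.j (C (η i' e : k)) * P.j (X i') * ε' e
      rw [hε', jC, smul_mul_assoc, P.cm, mul_smul_comm, ← Algebra.smul_def, smul_mul_assoc,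
        smul_comm]
      ) (by
      intro e a
      show ε' e * P.j (C a) = P.j (C a) * ε' e
      rw [jC]; exact (Algebra.commutes a (ε' e)).symm)
  have h1' : ∀ f, h (P.j f) = P.j f := h1
  have hs : ∀ (a : k) (z : Λ), h (a • z) = a • h z := by
    intro a z
    rw [Algebra.smul_def, map_mul, ← jC, h1', jC, ← Algebra.smul_def]
  have hb : ∀ α e, h (P.b (α, e)) = (((η i e)⁻¹ : kˣ) : k) • P.b (α, e) := by
    intro α e
    rw [P.hb, map_mul, h1', h2, hε', mul_smul_comm]
  have := Fintype.ofFinite E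
  refine ⟨h, ?_, ?_, hs, h1'⟩
  · intro z
    refine ⟨∑ y, P.b.repr z y • ((η i y.2 : k) • P.b y), ?_⟩
    rw [map_sum]
    conv_rhs => rw [← P.b.sum_repr z]
    refine Finset.sum_congr rfl fun y _ => ?_
    obtain ⟨α, e⟩ := y
    rw [hs, hs, hb, smul_smul (η i e : k), ← Units.val_mul, mul_inv_cancel, Units.val_one, one_smul]
  · intro a
    have key : ∀ y, P.j (X i) * P.b y = h (P.b y) * P.j (X i) := by
      rintro ⟨α, e⟩
      rw [hb, P.hb, smul_mul_assoc, mul_assoc, P.cm, mul_smul_comm, smul_smul, ← Units.val_mul,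
        inv_mul_cancel, Units.val_one, one_smul, ← mul_assoc, ← mul_assoc, ← map_mul, ← map_mul,
        mul_comm (X i)]
    conv_lhs => rw [← P.b.sum_repr a]
    conv_rhs => rw [← P.b.sum_repr a]
    rw [Finset.mul_sum, map_sum, Finset.sum_mul]
    refine Finset.sum_congr rfl fun y _ => ?_
    rw [mul_smul_comm, key, hs, smul_mul_assoc]

theorem anr (hAnn : AnnStmt) : AnrStmt := by
  intro F I E Λ _ _ _ _ _ _ _ q p i0 η P hq hη a ha
  obtain ⟨sg, h1, h2, h3, h4⟩ := nrm' (PowerSeries F) I E Λ q p _ η P (p i0)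
  obtain ⟨b, rfl⟩ := h1 a
  rw [← h2] at ha
  have hpos : 1 ≤ ∏ i ∈ Finset.univ.filter (fun i => p.SameCycle i0 i), q i :=
    Nat.one_le_iff_ne_zero.2 (Finset.prod_ne_zero_iff.2 fun i _ => by have := hq i; omega)
  obtain ⟨n, b', hb'⟩ := hAnn F I E Λ q p i0 η P hq hη 1 hpos b (by rw [pow_one]; exact ha)
  have hm : ∀ (m : ℕ) (z : Λ), ∃ z' : Λ,
      P.j (X (p i0)) ^ m * z = z' * P.j (X (p i0)) ^ m := by
    intro m
    induction m with
    | zero => exact fun z => ⟨z, by rw [pow_zero, one_mul, mul_one]⟩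
    | succ m ih =>
      intro z
      obtain ⟨z', hz'⟩ := ih z
      refine ⟨sg z', ?_⟩
      rw [pow_succ', mul_assoc, hz', ← mul_assoc, h2, mul_assoc]
  obtain ⟨z', hz'⟩ := hm ((∏ i ∈ Finset.univ.filter (fun i => p.SameCycle i0 i), q i) - 1) (sg b')
  refine ⟨n, z', ?_⟩
  rw [← h3, hb', map_mul, map_pow, h4, hz']

end Pool.Agent.PFC.B2.H60
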