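import Pool.Agent.PFC.StmtsB2

/-!
Squad PFC, block B2, row BSE: a `Γ`-endomorphism of a representation of `A` is an `A`-endomorphism
plus a map through a Higman projective representation.
-/

set_option autoImplicit false

namespace Pool.Agent.PFC.B2.H60

open Pool.Agent.PFC.B1

theorem bse (hQex : QexStmt) (hPin : PinStmt) (hRes : ResStmt) : BseStmt := by
  intro R Γ A I J k T _ _ _ _ _ _ _ _ _ _ _ c d sp τ θ hP hθ
  obtain ⟨ι, π, s, hι, hπ, hι1, hπ1, hs1, hinj, hps, hker⟩ := hQex R Γ A k T sp.j τ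
  obtain ⟨u, hu, hπu⟩ := (hPin.1 R A J k (QQ sp.j τ) (QQ sp.j τ) (Co sp.j (τ.res sp.j)) d
    (qqRp sp.j τ) (qqRp sp.j τ) (coRp sp.j (τ.res sp.j)) hP).1 π s LinearMap.id hπ hps
    (fun _ _ => rfl)
  -- the retraction `r`
  have hmem : ∀ f, (LinearMap.id - u ∘ₗ π : Co sp.j (τ.res sp.j) →ₗ[k] Co sp.j (τ.res sp.j)) f ∈
      LinearMap.range ι := by
    intro f
    rw [← hker, LinearMap.mem_ker]
    have h : π (u (π f)) = π f := by
      have h1 := congrArg (fun l : QQ sp.j τ →ₗ[k] QQ sp.j τ => l (π f)) hπu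
      exact h1
    rw [LinearMap.sub_apply, map_sub, LinearMap.id_apply, LinearMap.comp_apply, h, sub_self]
  obtain ⟨r, hr⟩ : ∃ r : Co sp.j (τ.res sp.j) →ₗ[k] T, ∀ f, ι (r f) = f - u (π f) := by
    refine ⟨(LinearEquiv.ofInjective ι hinj).symm.toLinearMap ∘ₗ
      LinearMap.codRestrict (LinearMap.range ι) (LinearMap.id - u ∘ₗ π) hmem, fun f => ?_⟩
    have h := LinearEquiv.apply_symm_apply (LinearEquiv.ofInjective ι hinj)
      (LinearMap.codRestrict (LinearMap.range ι) (LinearMap.id - u ∘ₗ π) hmem f)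
    exact congrArg Subtype.val h
  have hrA : ∀ a f, r ((coRp sp.j (τ.res sp.j)).ρ a f) = τ.ρ a (r f) := by
    intro a f
    apply hinj
    rw [hr, hι, hr, hπ, hu, map_sub]
  -- the map `Θ`
  obtain ⟨Θ, hΘ⟩ : ∃ Θ : T →ₗ[k] Co sp.j (τ.res sp.j), ∀ t x, (Θ t).1 x = θ (τ.ρ x t) := by
    refine ⟨{ toFun := fun t => ⟨fun x => θ (τ.ρ x t), fun x y => ?_, fun γ x => ?_⟩
              map_add' := fun t t' => ?_
              map_smul' := fun a t => ?_ }, fun _ _ => rfl⟩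
    · show θ (τ.ρ (x + y) t) = θ (τ.ρ x t) + θ (τ.ρ y t)
      rw [map_add τ.ρ, LinearMap.add_apply, map_add]
    · show θ (τ.ρ (sp.j γ * x) t) = (τ.res sp.j).ρ γ (θ (τ.ρ x t))
      rw [← hθ, map_mul τ.ρ]
      rfl
    · apply Subtype.ext
      funext x
      show θ (τ.ρ x (t + t')) = θ (τ.ρ x t) + θ (τ.ρ x t')
      rw [map_add, map_add]
    · apply Subtype.ext
      funext x
      show θ (τ.ρ x (a • t)) = a • θ (τ.ρ x t)
      rw [map_smul, map_smul]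
  have hΘA : IsHom τ (coRp sp.j (τ.res sp.j)) Θ := by
    intro a t
    apply Subtype.ext
    funext x
    rw [hΘ]
    show θ (τ.ρ x (τ.ρ a t)) = (Θ t).1 (x * a)
    rw [hΘ, map_mul τ.ρ]
    rfl
  -- evaluation at `1`
  obtain ⟨ev, hev⟩ : ∃ ev : Co sp.j (τ.res sp.j) →ₗ[k] T, ∀ f, ev f = f.1 1 :=
    ⟨{ toFun := fun f => f.1 1
       map_add' := fun _ _ => rfl
       map_smul' := fun _ _ => rfl }, fun _ => rfl⟩
  refine ⟨r ∘ₗ Θ, QQ sp.j τ, inferInstance, inferInstance, (qqRp sp.j τ).res sp.j, π ∘ₗ Θ,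
    ev ∘ₗ u, ?_, hRes R Γ A I J k (QQ sp.j τ) c d sp (qqRp sp.j τ) hP, ?_, ?_, ?_⟩
  · intro a t
    show r (Θ (τ.ρ a t)) = τ.ρ a (r (Θ t))
    rw [hΘA, hrA]
  · intro γ t
    show π (Θ (τ.ρ (sp.j γ) t)) = (qqRp sp.j τ).ρ (sp.j γ) (π (Θ t))
    rw [hΘA, hπ]
  · intro γ q
    show ev (u ((qqRp sp.j τ).ρ (sp.j γ) q)) = τ.ρ (sp.j γ) (ev (u q))
    rw [hu, hev, hev]
    show (u q).1 (1 * sp.j γ) = τ.ρ (sp.j γ) ((u q).1 1)
    have h := (u q).2.2 γ 1
    rw [mul_one] at h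
    rw [one_mul, h]
    rfl
  · apply LinearMap.ext
    intro t
    show θ t = r (Θ t) + ev (u (π (Θ t)))
    have h1 : ev (Θ t) = θ t := by
      rw [hev, hΘ, map_one]
      rfl
    have h2 : ev (ι (r (Θ t))) = r (Θ t) := by
      rw [hev, hι1, map_one]
      rfl
    rw [← h1, ← h2, hr, ← map_add]
    congr 1
    abel

end Pool.Agent.PFC.B2.H60
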