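import Pool.Agent.PFC.StmtsB3

/-!
Squad PFC, block B3, row DEC: eigenspaces of a finite commutative group of order prime to the
characteristic.
-/

set_option autoImplicit false

open scoped BigOperators

noncomputable section

namespace Pool.Agent.PFC.B3.H60

variable {F E M : Type} [Field F] [CommGroup E] [Fintype E]
  [AddCommGroup M] [Module F M]

theorem neZero_exp (hE : (Fintype.card E : F) ≠ 0) :
    NeZero ((Monoid.exponent E : ℕ) : F) := by
  refine ⟨fun h => hE ?_⟩
  obtain ⟨k, hk⟩ : Monoid.exponent E ∣ Fintype.card E := by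
    rw [← Nat.card_eq_fintype_card]
    exact Group.exponent_dvd_nat_card
  rw [hk, Nat.cast_mul, h, zero_mul]

/-- the projector onto the eigenspace -/
def pr (T : E →* Module.End F M) (η : E →* Fˣ) : M →ₗ[F] M :=
  (Fintype.card E : F)⁻¹ • ∑ e, ((η e)⁻¹ : Fˣ).val • T e

theorem pr_apply (T : E →* Module.End F M) (η : E →* Fˣ) (m : M) :
    pr T η m = (Fintype.card E : F)⁻¹ • ∑ e, ((η e)⁻¹ : Fˣ).val • T e m := by
  simp only [pr, LinearMap.smul_apply, LinearMap.sum_apply]

theorem pr_mem (T : E →* Module.End F M) (η : E →* Fˣ) (m : M) :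
    pr T η m ∈ Eg F (fun e => T e) η := by
  intro g
  show T g (pr T η m) = (η g : F) • pr T η m
  rw [pr_apply, map_smul, map_sum, smul_comm (η g : F)]
  refine congrArg (fun z : M => (Fintype.card E : F)⁻¹ • z) ?_
  rw [Finset.smul_sum]
  refine Fintype.sum_equiv (Equiv.mulLeft g) (fun e => T g (((η e)⁻¹ : Fˣ).val • T e m))
    (fun e => (η g : F) • (((η e)⁻¹ : Fˣ).val • T e m)) fun e => ?_
  show T g (((η e)⁻¹ : Fˣ).val • T e m) =
    (η g : F) • (((η (g * e))⁻¹ : Fˣ).val • T (g * e) m)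
  rw [map_smul, map_mul T, Module.End.mul_apply, smul_smul, map_mul η]
  have h : (η g : F) * ((η g * η e)⁻¹ : Fˣ).val = ((η e)⁻¹ : Fˣ).val := by
    rw [mul_inv, Units.val_mul, ← mul_assoc, Units.mul_inv, one_mul]
  rw [h]

theorem pr_inv (T : E →* Module.End F M) (η : E →* Fˣ) (U : Submodule F M)
    (hU : ∀ e, ∀ u ∈ U, T e u ∈ U) (u : M) (hu : u ∈ U) : pr T η u ∈ U := by
  rw [pr_apply]
  exact U.smul_mem _ (Submodule.sum_mem _ fun e _ => U.smul_mem _ (hU e u hu))

theorem pr_self (hE : (Fintype.card E : F) ≠ 0) (T : E →* Module.End F M) (η : E →* Fˣ) (m : M)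
    (hm : m ∈ Eg F (fun e => T e) η) : pr T η m = m := by
  have h : ∀ e, ((η e)⁻¹ : Fˣ).val • T e m = m := by
    intro e
    have h1 : T e m = (η e : F) • m := hm e
    rw [h1, smul_smul, Units.inv_mul, one_smul]
  rw [pr_apply, Finset.sum_congr rfl fun e _ => h e, Finset.sum_const, Finset.card_univ,
    ← Nat.cast_smul_eq_nsmul F, smul_smul, inv_mul_cancel₀ hE, one_smul]

theorem pr_other (T : E →* Module.End F M) (η θ : E →* Fˣ) (hne : η ≠ θ) (m : M)
    (hm : m ∈ Eg F (fun e => T e) θ) : pr T η m = 0 := by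
  obtain ⟨g, hg⟩ : ∃ g, η g ≠ θ g := by
    by_contra h
    push Not at h
    exact hne (MonoidHom.ext h)
  have h1 : pr T η m ∈ Eg F (fun e => T e) η := pr_mem T η m
  have h2 : pr T η m ∈ Eg F (fun e => T e) θ :=
    pr_inv T η (Eg F (fun e => T e) θ) (fun e u hu g => by
      have hu' : ∀ e, T e u = (θ e : F) • u := hu
      show T g (T e u) = (θ g : F) • T e u
      rw [hu' e, map_smul, hu' g, smul_comm]) m hm
  have h3 : (η g : F) • pr T η m = (θ g : F) • pr T η m := (h1 g).symm.trans (h2 g)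
  have h4 : ((η g : F) - (θ g : F)) • pr T η m = 0 := by rw [sub_smul, h3, sub_self]
  rcases smul_eq_zero.1 h4 with h5 | h5
  · exact absurd (Units.ext (sub_eq_zero.1 h5)) hg
  · exact h5

theorem sum_char [IsAlgClosed F] (hE : (Fintype.card E : F) ≠ 0) [Fintype (E →* Fˣ)] (e : E) (he : e ≠ 1) :
    ∑ η : E →* Fˣ, ((η e)⁻¹ : Fˣ).val = 0 := by
  have := neZero_exp hE
  obtain ⟨φ, hφ⟩ := CommGroup.exists_apply_ne_one_of_hasEnoughRootsOfUnity E F he
  have h : ∑ η : E →* Fˣ, ((η e)⁻¹ : Fˣ).val =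
      ((φ e)⁻¹ : Fˣ).val * ∑ η : E →* Fˣ, ((η e)⁻¹ : Fˣ).val := by
    rw [Finset.mul_sum]
    symm
    refine Fintype.sum_equiv (Equiv.mulLeft φ) _ _ fun η => ?_
    rw [Equiv.coe_mulLeft, MonoidHom.mul_apply, mul_inv, Units.val_mul]
  have h2 : (1 - ((φ e)⁻¹ : Fˣ).val) * ∑ η : E →* Fˣ, ((η e)⁻¹ : Fˣ).val = 0 := by
    rw [sub_mul, one_mul, ← h, sub_self]
  rcases mul_eq_zero.1 h2 with h3 | h3
  · exfalso
    apply hφ
    have h4 : ((φ e)⁻¹ : Fˣ) = 1 := Units.ext (sub_eq_zero.1 h3).symm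
    exact inv_eq_one.1 h4
  · exact h3

theorem sum_pr [IsAlgClosed F] (hE : (Fintype.card E : F) ≠ 0) [Fintype (E →* Fˣ)] (T : E →* Module.End F M)
    (m : M) : ∑ η : E →* Fˣ, pr T η m = m := by
  have := neZero_exp hE
  have hc : Fintype.card (E →* Fˣ) = Fintype.card E := by
    rw [← Nat.card_eq_fintype_card, ← Nat.card_eq_fintype_card]
    exact CommGroup.card_monoidHom_of_hasEnoughRootsOfUnity E F
  simp only [pr_apply]
  rw [← Finset.smul_sum, Finset.sum_comm]
  simp only [← Finset.sum_smul]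
  rw [Finset.sum_eq_single 1]
  · simp only [map_one, inv_one, Units.val_one, Finset.sum_const, Finset.card_univ, nsmul_eq_mul,
      mul_one, Module.End.one_apply]
    rw [hc, smul_smul, inv_mul_cancel₀ hE, one_smul]
  · intro e _ he
    rw [sum_char hE e he, zero_smul]
  · intro h
    exact absurd (Finset.mem_univ _) h

/-- an invariant subspace is the product of its eigenspaces -/
def eqv [IsAlgClosed F] (hE : (Fintype.card E : F) ≠ 0) [Fintype (E →* Fˣ)] (T : E →* Module.End F M)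
    (U : Submodule F M) (hU : ∀ e, ∀ u ∈ U, T e u ∈ U) :
    U ≃ₗ[F] (∀ η : E →* Fˣ, (U ⊓ Eg F (fun e => T e) η : Submodule F M)) where
  toFun u := fun η => ⟨pr T η u, pr_inv T η U hU u u.2, pr_mem T η u⟩
  map_add' u v := by
    funext η
    apply Subtype.ext
    show pr T η (u + v : M) = pr T η u + pr T η v
    rw [map_add]
  map_smul' c u := by
    funext η
    apply Subtype.ext
    show pr T η (c • (u : M)) = c • pr T η u
    rw [map_smul]
  invFun f := ⟨∑ η, (f η : M), Submodule.sum_mem _ fun η _ => (f η).2.1⟩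
  left_inv u := by
    apply Subtype.ext
    show ∑ η, pr T η (u : M) = u
    exact sum_pr hE T u
  right_inv f := by
    classical
    funext η
    apply Subtype.ext
    show pr T η (∑ θ, (f θ : M)) = f η
    rw [map_sum, Finset.sum_eq_single η]
    · exact pr_self hE T η _ (f η).2.2
    · intro θ _ hθ
      exact pr_other T η θ hθ.symm _ (f θ).2.2
    · intro h
      exact absurd (Finset.mem_univ _) h

theorem dec : DecStmt := by
  intro F E M _ _ _ _ _ _ _ _ T hE
  have : Fintype (E →* Fˣ) := Fintype.ofFinite _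
  refine ⟨fun U hU => ⟨?_, ?_⟩, fun A B hA hB η => ?_⟩
  · rw [(eqv hE T U hU).finrank_eq, Module.finrank_pi_fintype, finsum_eq_sum_of_fintype]
  · refine le_antisymm (fun u hu => ?_) (iSup_le fun η => inf_le_left)
    rw [← sum_pr hE T u]
    exact Submodule.sum_mem _ fun η _ =>
      Submodule.mem_iSup_of_mem η ⟨pr_inv T η U hU u hu, pr_mem T η u⟩
  · refine le_antisymm ?_ (sup_le (inf_le_inf_right _ le_sup_left)
      (inf_le_inf_right _ le_sup_right))
    rintro x ⟨hx, hxe⟩
    obtain ⟨a, ha, b, hb, rfl⟩ := Submodule.mem_sup.1 hx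
    rw [← pr_self hE T η _ hxe, map_add]
    exact Submodule.add_mem_sup ⟨pr_inv T η A hA a ha, pr_mem T η a⟩
      ⟨pr_inv T η B hB b hb, pr_mem T η b⟩

end Pool.Agent.PFC.B3.H60
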